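import Mathlib

/-!
# The universal two generator Lie-nil algebra has nonzero products of length `2 n - 2`

`K⟨X, Y⟩` is the free algebra, `L0` its Lie subalgebra generated by `X` and `Y`, `aug` the
subspace `K⟨X, Y⟩⁺` of elements without constant term and `nilIdeal K n` the two-sided ideal
generated by all `U ^ n` with `U ∈ L0`.  The question asks whether
`A = K⟨X, Y⟩⁺ / nilIdeal K n` satisfies `A ^ (2 n - 2) = 0`.

We show that the answer is no for *every* `n ≥ 2` and every field in which `(n - 1)! ≠ 0`
(in particular for all fields of the question): the monomial `X ^ (n-1) Y ^ (n-1)` of degree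
`2 n - 2` is not in the ideal, even when all commutators `[u, [v, w]]`, `u, v, w ∈ L0`, are
added to the ideal.

The reason: let `Λ` be the exterior algebra on two generators `x, y`.  In the `m`-fold tensor
power of `Λ`, the elements `X = ∑ x_i`, `Y = ∑ y_i` generate a Heisenberg Lie algebra, each
element `U = ∑ U_i` of which is a sum of `m` commuting elements of square zero, so
`U ^ (m + 1) = 0`, whereas `X ^ m Y ^ m = (m!)² ∏ x_i y_i` is not zero.
-/

namespace Pool.Agent.Results.MP_776ebc_al.HeisenbergNotNil

/-- The free associative unital algebra on two generators. -/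
abbrev Fr (K : Type) [Field K] : Type := FreeAlgebra K (Fin 2)

/-- The first generator. -/
def gX (K : Type) [Field K] : Fr K := FreeAlgebra.ι K 0

/-- The second generator. -/
def gY (K : Type) [Field K] : Fr K := FreeAlgebra.ι K 1

/-- The free associative algebra without unit on `X, Y`, as a subalgebra without unit of the
free unital algebra. -/
def aug (K : Type) [Field K] : NonUnitalSubalgebra K (Fr K) :=
  NonUnitalAlgebra.adjoin K {gX K, gY K}

/-- Membership in the Lie subalgebra `L0` generated by `X` and `Y` under `[u, v] = u v - v u`: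
the smallest linear subspace that contains `X` and `Y` and is closed under commutators. -/
inductive L0 (K : Type) [Field K] : Fr K → Prop
  | x : L0 K (gX K)
  | y : L0 K (gY K)
  | add {u v : Fr K} : L0 K u → L0 K v → L0 K (u + v)
  | smul (c : K) {u : Fr K} : L0 K u → L0 K (c • u)
  | comm {u v : Fr K} : L0 K u → L0 K v → L0 K (u * v - v * u)

/-- The two-sided ideal generated by all `U ^ n`, `U ∈ L0`: all linear combinations of the
elements `a * U ^ n * b`, with `a, b` in the free unital algebra. -/
def nilIdeal (K : Type) [Field K] (n : ℕ) : Submodule K (Fr K) :=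
  Submodule.span K {w | ∃ a b u : Fr K, L0 K u ∧ w = a * u ^ n * b}

/-- The two-sided ideal generated by all commutators `[u, [v, w]]` with `u, v, w ∈ L0`. -/
def class2Ideal (K : Type) [Field K] : Submodule K (Fr K) :=
  Submodule.span K {z | ∃ a b u v w : Fr K, L0 K u ∧ L0 K v ∧ L0 K w ∧
    z = a * (u * (v * w - w * v) - (v * w - w * v) * u) * b}

/-- `A ^ k = 0` for `A = K⟨X, Y⟩⁺ / nilIdeal K n`: each product of `k` elements of `K⟨X, Y⟩⁺`
lies in `nilIdeal K n`. -/
def PowZero (K : Type) [Field K] (n k : ℕ) : Prop :=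
  ∀ f : Fin k → Fr K, (∀ i, f i ∈ aug K) → (List.ofFn f).prod ∈ nilIdeal K n

/-- The matrix of left multiplication by `x` on the exterior algebra. -/
def P (B : Type) [Ring B] : Matrix (Fin 4) (Fin 4) B :=
  !![0,0,0,0; 1,0,0,0; 0,0,0,0; 0,0,1,0]

/-- The matrix of left multiplication by `y` on the exterior algebra. -/
def Q (B : Type) [Ring B] : Matrix (Fin 4) (Fin 4) B :=
  !![0,0,0,0; 0,0,0,0; 1,0,0,0; 0,-1,0,0]

/-- The matrix of left multiplication by `x y` on the exterior algebra. -/
def R (B : Type) [Ring B] : Matrix (Fin 4) (Fin 4) B :=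
  !![0,0,0,0; 0,0,0,0; 0,0,0,0; 1,0,0,0]

theorem PP (B : Type) [Ring B] : P B * P B = 0 := by
  ext i j; fin_cases i <;> fin_cases j <;> simp [P, Matrix.mul_apply, Fin.sum_univ_four]

theorem QQ (B : Type) [Ring B] : Q B * Q B = 0 := by
  ext i j; fin_cases i <;> fin_cases j <;> simp [Q, Matrix.mul_apply, Fin.sum_univ_four]

theorem PQ (B : Type) [Ring B] : P B * Q B = R B := by
  ext i j; fin_cases i <;> fin_cases j <;> simp [P, Q, R, Matrix.mul_apply, Fin.sum_univ_four]

theorem QP (B : Type) [Ring B] : Q B * P B = - R B := by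
  ext i j; fin_cases i <;> fin_cases j <;> simp [P, Q, R, Matrix.mul_apply, Fin.sum_univ_four]

theorem PR (B : Type) [Ring B] : P B * R B = 0 := by rw [← PQ, ← mul_assoc, PP, zero_mul]

theorem RQ (B : Type) [Ring B] : R B * Q B = 0 := by rw [← PQ, mul_assoc, QQ, mul_zero]

theorem RP (B : Type) [Ring B] : R B * P B = 0 := by
  rw [← PQ, mul_assoc, QP, mul_neg, PR, neg_zero]

theorem QR (B : Type) [Ring B] : Q B * R B = 0 := by
  rw [← PQ, ← mul_assoc, QP, neg_mul, RQ, neg_zero]

theorem RR (B : Type) [Ring B] : R B * R B = 0 := by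
  rw [← PQ, mul_assoc, PQ, QR, mul_zero]

/-- The algebra of 4 x 4 matrices over `B`; scalar matrices. -/
def S (K B : Type) [Field K] [Ring B] [Algebra K B] : B →ₐ[K] Matrix (Fin 4) (Fin 4) B where
  toFun := fun b => Matrix.diagonal (fun _ => b)
  map_one' := by simp
  map_mul' := fun a b => by simp
  map_zero' := by simp
  map_add' := fun a b => by simp
  commutes' := fun r => by
    ext i j
    by_cases h : i = j <;> simp [h, Matrix.algebraMap_matrix_apply]

theorem commP (K B : Type) [Field K] [Ring B] [Algebra K B] (b : B) :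
    Commute (S K B b) (P B) := by
  unfold Commute SemiconjBy
  ext i j
  fin_cases i <;> fin_cases j <;> simp [S, P]

theorem commQ (K B : Type) [Field K] [Ring B] [Algebra K B] (b : B) :
    Commute (S K B b) (Q B) := by
  unfold Commute SemiconjBy
  ext i j
  fin_cases i <;> fin_cases j <;> simp [S, Q]

/-- The model: an algebra with two elements `x, y` such that the span of `x, y, [x, y]` is a
Heisenberg algebra all elements of which have `(m+1)`-st power zero, but `x ^ m y ^ m ≠ 0`. -/
theorem model (K : Type) [Field K] (m : ℕ) (hm : (m.factorial : K) ≠ 0) :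
    ∃ (B : Type) (_ : Ring B) (_ : Algebra K B) (x y z : B), x * y - y * x = z ∧
      (∀ a b c : K, (a • x + b • y + c • z) ^ (m + 1) = 0) ∧
      Commute x z ∧ Commute y z ∧ x ^ m * y ^ m ≠ 0 := by
  induction m with
  | zero =>
    refine ⟨K, inferInstance, inferInstance, 0, 0, 0, by simp, ?_, ?_, ?_, ?_⟩
    · intro a b c; simp
    · exact Commute.zero_right _
    · exact Commute.zero_right _
    · simp
  | succ m ih =>
    have hm1 : ((m + 1 : ℕ) : K) ≠ 0 ∧ (m.factorial : K) ≠ 0 := by
      rw [Nat.factorial_succ, Nat.cast_mul] at hm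
      exact ⟨left_ne_zero_of_mul hm, right_ne_zero_of_mul hm⟩
    obtain ⟨B, _, _, x, y, z, h0, h1, h2, h3, h4⟩ := ih hm1.2
    have cP := commP K B
    have cQ := commQ K B
    have cR : ∀ b, Commute (S K B b) (R B) := fun b => by
      rw [← PQ]; exact (cP b).mul_right (cQ b)
    have pr : Commute (P B) (R B) := by
      unfold Commute SemiconjBy; rw [PR, RP]
    have qr : Commute (Q B) (R B) := by
      unfold Commute SemiconjBy; rw [QR, RQ]
    refine ⟨Matrix (Fin 4) (Fin 4) B, inferInstance, inferInstance, S K B x + P B,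
      S K B y + Q B, S K B z + (2 : K) • R B, ?_, ?_, ?_, ?_, ?_⟩
    · rw [← h0, map_sub, map_mul, map_mul, add_mul, mul_add, mul_add, add_mul, mul_add, mul_add,
        PQ, QP, (cQ x).eq, (cP y).eq]
      rw [two_smul]
      abel
    · intro a b c
      have e : a • (S K B x + P B) + b • (S K B y + Q B) + c • (S K B z + (2 : K) • R B)
          = S K B (a • x + b • y + c • z) + (a • P B + b • Q B + (c * 2) • R B) := by
        simp only [map_add, map_smul, smul_add, smul_smul]
        abel
      rw [e]
      have hc : Commute (S K B (a • x + b • y + c • z)) (a • P B + b • Q B + (c * 2) • R B) :=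
        (((cP _).smul_right a).add_right ((cQ _).smul_right b)).add_right ((cR _).smul_right _)
      refine hc.add_pow_eq_zero_of_add_le_succ_of_pow_eq_zero (m := m + 1) (n := 2) ?_ ?_ ?_
      · rw [← map_pow, h1, map_zero]
      · rw [sq]
        simp only [add_mul, mul_add, smul_mul_smul_comm, PP, QQ, PQ, QP, RR, PR, RQ, RP, QR,
          smul_zero, smul_neg]
        rw [mul_comm b a]
        abel
      · omega
    · have : Commute (S K B x) (S K B z) := by
        unfold Commute SemiconjBy; rw [← map_mul, ← map_mul, h2.eq]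
      exact (this.add_right ((cR x).smul_right _)).add_left
        (((cP z).symm).add_right (pr.smul_right _))
    · have : Commute (S K B y) (S K B z) := by
        unfold Commute SemiconjBy; rw [← map_mul, ← map_mul, h3.eq]
      exact (this.add_right ((cR y).smul_right _)).add_left
        (((cQ z).symm).add_right (qr.smul_right _))
    · have key : ∀ (s : B) (T : Matrix (Fin 4) (Fin 4) B), s ^ (m + 1) = 0 → T * T = 0 →
          Commute (S K B s) T → (S K B s + T) ^ (m + 1) = ((m + 1 : ℕ) : K) • (S K B (s ^ m) * T) := by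
        intro s T hs hT hc
        rw [hc.add_pow, Finset.sum_range_succ, Finset.sum_eq_single_of_mem m (by simp)]
        · rw [← map_pow, ← map_pow, hs]
          rw [Nat.add_sub_cancel_left, pow_one, map_zero, zero_mul, zero_mul, add_zero,
            Nat.choose_succ_self_right, Nat.cast_smul_eq_nsmul, nsmul_eq_mul,
            (Nat.cast_commute _ _).eq]
        · intro k hk hkm
          have : k < m := by
            rw [Finset.mem_range] at hk; omega
          have h2 : 2 ≤ m + 1 - k := by omega
          obtain ⟨j, hj⟩ := Nat.exists_eq_add_of_le h2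
          rw [hj, pow_add, sq, hT]; simp
      have hx : x ^ (m + 1) = 0 := by simpa using h1 1 0 0
      have hy : y ^ (m + 1) = 0 := by simpa using h1 0 1 0
      rw [key x _ hx (PP B) (cP x), key y _ hy (QQ B) (cQ y), smul_mul_smul_comm]
      have e2 : S K B (x ^ m) * P B * (S K B (y ^ m) * Q B) = S K B (x ^ m * y ^ m) * R B := by
        rw [map_mul, ← PQ, mul_assoc, ← mul_assoc (P B), ← (cP (y ^ m)).eq]
        simp only [mul_assoc]
      rw [e2]
      intro h
      have h' := congrArg (fun M => M 3 0) h
      simp [S, R, Matrix.smul_apply] at h'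
      rcases h' with h' | h'
      · exact hm1.1 (by exact_mod_cast h')
      · exact h4 h'

/-- The monomial `X ^ (n-1) Y ^ (n-1)` is not in the ideal. -/
theorem main (K : Type) [Field K] (n : ℕ) (hn : 1 ≤ n) (hK : ((n - 1).factorial : K) ≠ 0) :
    gX K ^ (n - 1) * gY K ^ (n - 1) ∉ nilIdeal K n ⊔ class2Ideal K := by
  obtain ⟨m, rfl⟩ : ∃ m, n = m + 1 := ⟨n - 1, by omega⟩
  simp only [Nat.add_sub_cancel] at hK ⊢
  obtain ⟨B, _, _, x, y, z, h0, h1, h2, h3, h4⟩ := model K m hK
  let φ : Fr K →ₐ[K] B := FreeAlgebra.lift K ![x, y]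
  have hX : φ (gX K) = x := by simp [φ, gX]
  have hY : φ (gY K) = y := by simp [φ, gY]
  have hL : ∀ u, L0 K u → ∃ a b c : K, φ u = a • x + b • y + c • z := by
    intro u hu
    induction hu with
    | x => exact ⟨1, 0, 0, by simp [hX]⟩
    | y => exact ⟨0, 1, 0, by simp [hY]⟩
    | add _ _ h h' =>
      obtain ⟨a, b, c, e⟩ := h
      obtain ⟨a', b', c', e'⟩ := h'
      refine ⟨a + a', b + b', c + c', ?_⟩
      rw [map_add, e, e']
      simp only [add_smul]
      abel
    | smul r _ h =>
      obtain ⟨a, b, c, e⟩ := h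
      exact ⟨r * a, r * b, r * c, by rw [map_smul, e]; simp only [smul_add, smul_smul]⟩
    | comm _ _ h h' =>
      obtain ⟨a, b, c, e⟩ := h
      obtain ⟨a', b', c', e'⟩ := h'
      refine ⟨0, 0, a * b' - b * a', ?_⟩
      rw [map_sub, map_mul, map_mul, e, e']
      simp only [add_mul, mul_add, smul_mul_smul_comm, h2.eq, h3.eq]
      rw [← h0]
      simp only [zero_smul, zero_add, smul_sub, sub_smul, mul_comm a' b, mul_comm b' a,
        mul_comm a' a, mul_comm b' b, mul_comm c' a, mul_comm c' b, mul_comm c' c,
        mul_comm a' c, mul_comm b' c]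
      abel
  have hker : nilIdeal K (m + 1) ⊔ class2Ideal K ≤ LinearMap.ker φ.toLinearMap := by
    refine sup_le (Submodule.span_le.2 ?_) (Submodule.span_le.2 ?_)
    · rintro w ⟨a, b, u, hu, rfl⟩
      obtain ⟨r, s, t, e⟩ := hL u hu
      simp only [SetLike.mem_coe, LinearMap.mem_ker, AlgHom.toLinearMap_apply, map_mul, map_pow]
      rw [e, h1]
      simp
    · rintro w ⟨a, b, u, v, t, hu, hv, ht, rfl⟩
      obtain ⟨r, s, q, e⟩ := hL u hu
      obtain ⟨r', s', q', e'⟩ := hL _ (L0.comm hv ht)
      obtain ⟨r1, s1, q1, e1⟩ := hL v hv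
      obtain ⟨r2, s2, q2, e2⟩ := hL t ht
      have e3 : ∃ c : K, φ (v * t - t * v) = c • z := by
        refine ⟨r1 * s2 - s1 * r2, ?_⟩
        rw [map_sub, map_mul, map_mul, e1, e2]
        simp only [add_mul, mul_add, smul_mul_smul_comm, h2.eq, h3.eq]
        rw [← h0]
        simp only [smul_sub, sub_smul, mul_comm r2 s1, mul_comm s2 r1,
          mul_comm r2 r1, mul_comm s2 s1, mul_comm q2 r1, mul_comm q2 s1, mul_comm q2 q1,
          mul_comm r2 q1, mul_comm s2 q1]
        abel
      obtain ⟨c, e3⟩ := e3
      simp only [SetLike.mem_coe, LinearMap.mem_ker, AlgHom.toLinearMap_apply]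
      rw [map_mul, map_mul, map_sub, map_mul φ u, map_mul φ _ u, e3, e]
      have hc : Commute (r • x + s • y + q • z) (c • z) :=
        (((h2.smul_left r).add_left (h3.smul_left s)).add_left
          ((Commute.refl z).smul_left q)).smul_right c
      rw [hc.eq]
      simp
  intro hmem
  have := hker hmem
  simp only [LinearMap.mem_ker, AlgHom.toLinearMap_apply, map_mul, map_pow, hX, hY] at this
  exact h4 this

theorem gX_mem (K : Type) [Field K] : gX K ∈ aug K :=
  NonUnitalAlgebra.subset_adjoin K (by simp)

theorem gY_mem (K : Type) [Field K] : gY K ∈ aug K :=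
  NonUnitalAlgebra.subset_adjoin K (by simp)

theorem not_powZero (K : Type) [Field K] (n : ℕ) (hn : 1 ≤ n)
    (hK : ((n - 1).factorial : K) ≠ 0) : ¬ PowZero K n (2 * n - 2) := by
  intro h
  obtain ⟨m, rfl⟩ : ∃ m, n = m + 1 := ⟨n - 1, by omega⟩
  have e : 2 * (m + 1) - 2 = m + m := by omega
  rw [e] at h
  have h' := h (Fin.append (fun _ : Fin m => gX K) (fun _ : Fin m => gY K)) (by
    intro i
    refine Fin.addCases (fun j => ?_) (fun j => ?_) i
    · rw [Fin.append_left]; exact gX_mem K
    · rw [Fin.append_right]; exact gY_mem K)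
  refine main K (m + 1) hn hK (Submodule.mem_sup_left ?_)
  have e2 : (List.ofFn (Fin.append (fun _ : Fin m => gX K) (fun _ : Fin m => gY K))).prod
      = gX K ^ m * gY K ^ m := by
    rw [List.ofFn_fin_append, List.prod_append, List.ofFn_const, List.ofFn_const,
      List.prod_replicate, List.prod_replicate]
  rw [e2] at h'
  simpa using h'




/-- **Negative answer to Q1, for each `n` and each field.**  For every `n ≥ 2` and every field `K`
with `(n - 1)! ≠ 0` in `K`, the monomial `X ^ (n-1) Y ^ (n-1)` of degree `2 n - 2` is not in the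
ideal generated by all `U ^ n`, `U ∈ L0`, together with all commutators `[u, [v, w]]`,
`u, v, w ∈ L0`.  In particular `A ^ (2 n - 2) ≠ 0` for each `n ≥ 3` and `K = ℚ` or
`K = ZMod p` with `p > 3 n / 2`. -/
theorem result :
    (∀ (K : Type) [Field K] (n : ℕ), 2 ≤ n → ((n - 1).factorial : K) ≠ 0 →
      gX K ^ (n - 1) * gY K ^ (n - 1) ∉ nilIdeal K n ⊔ class2Ideal K) ∧
    (∀ n : ℕ, 3 ≤ n → ¬ PowZero ℚ n (2 * n - 2)) ∧
    (∀ (n p : ℕ) [Fact p.Prime], 3 ≤ n → 3 * n < 2 * p → ¬ PowZero (ZMod p) n (2 * n - 2)) := by
  refine ⟨fun K _ n hn hK => main K n (by omega) hK, fun n hn => ?_, fun n p _ hn hp => ?_⟩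
  · exact not_powZero ℚ n (by omega) (by exact_mod_cast Nat.factorial_ne_zero _)
  · refine not_powZero (ZMod p) n (by omega) ?_
    rw [Ne, ZMod.natCast_eq_zero_iff, (Fact.out : p.Prime).dvd_factorial]
    omega

end Pool.Agent.Results.MP_776ebc_al.HeisenbergNotNil
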